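import Pool.Agent.AEC.StmtsB

/-!
# Squad AEC, row DLU (universal property of unions)
-/

open FirstOrder FirstOrder.Language Cardinal Set

universe u

namespace Pool.Agent.AEC.H51

theorem dlu (hDis : DisStmt.{u}) : DluStmt.{u} := by
  intro L κ K ι _ _ _ F G s hs hG B t ht
  choose ix fx hfx using hG
  -- the value does not depend on the representation
  have hwd : ∀ i j (x : (F i).α) (y : (F j).α), s i x = s j y → t i x = t j y := by
    intro i j x y hxy
    obtain ⟨k, hik, hjk⟩ := directed_of (· ≤ ·) i j
    obtain ⟨z, hz⟩ := hs i k hik x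
    rw [← ht i k hik x z hz, ← ht j k hjk y z (hz.trans hxy)]
  -- finite tuples come from a single member
  have htup : ∀ (n : ℕ) (v : Fin n → G.α), ∃ (k : ι) (v' : Fin n → (F k).α),
      ∀ a, s k (v' a) = v a := by
    intro n v
    obtain ⟨k, hk⟩ := Finite.bddAbove_range (fun a : Fin n => ix (v a))
    have : ∀ a, ∃ y : (F k).α, s k y = v a := by
      intro a
      obtain ⟨y, hy⟩ := hs (ix (v a)) k (hk ⟨a, rfl⟩) (fx (v a))
      exact ⟨y, hy.trans (hfx (v a))⟩
    choose v' hv' using this
    exact ⟨k, v', hv'⟩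
  let w0 : G.α → B.α := fun y => t (ix y) (fx y)
  have hw0 : ∀ i x, w0 (s i x) = t i x := by
    intro i x
    exact hwd _ _ _ _ (hfx (s i x))
  have hinj : Function.Injective w0 := by
    intro y y' h
    obtain ⟨k, v', hv'⟩ := htup 2 ![y, y']
    have h0 : s k (v' 0) = y := hv' 0
    have h1 : s k (v' 1) = y' := hv' 1
    rw [← h0, ← h1, hw0, hw0] at h
    rw [← h0, ← h1, (t k).injective h]
  let w : G.α ↪[L] B.α :=
    { toFun := w0
      inj' := hinj
      map_fun' := by
        intro n f v
        obtain ⟨k, v', hv'⟩ := htup n v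
        have e1 : v = fun a => s k (v' a) := by funext a; exact (hv' a).symm
        have e2 : Structure.funMap f v = s k (Structure.funMap f v') := by
          rw [e1]
          exact ((s k).toEmb.map_fun f v').symm
        rw [e2, hw0]
        have e3 : (w0 ∘ v) = fun a => t k (v' a) := by
          funext a
          rw [e1]
          exact hw0 k (v' a)
        rw [e3]
        exact (t k).toEmb.map_fun f v'
      map_rel' := by
        intro n r v
        obtain ⟨k, v', hv'⟩ := htup n v
        have e1 : v = fun a => s k (v' a) := by funext a; exact (hv' a).symm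
        have e3 : (w0 ∘ v) = fun a => t k (v' a) := by
          funext a
          rw [e1]
          exact hw0 k (v' a)
        rw [e3, e1]
        exact ((t k).toEmb.map_rel r v').trans ((s k).toEmb.map_rel r v').symm }
  have hw : ∀ i x, w (s i x) = t i x := hw0
  have hran : w.toHom.range = ⨆ i, (t i).toEmb.toHom.range := by
    refine le_antisymm ?_ (iSup_le ?_)
    · rintro _ ⟨y, rfl⟩
      have hy : w y = t (ix y) (fx y) := rfl
      have hle : (t (ix y)).toEmb.toHom.range ≤ ⨆ i, (t i).toEmb.toHom.range :=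
        le_iSup (fun i => (t i).toEmb.toHom.range) (ix y)
      exact hle ⟨fx y, rfl⟩
    · rintro i _ ⟨x, rfl⟩
      exact ⟨s i x, hw i x⟩
  have hdir : Directed (· ≤ ·) (fun i => (t i).toEmb.toHom.range) := by
    intro i j
    obtain ⟨k, hik, hjk⟩ := directed_of (· ≤ ·) i j
    refine ⟨k, ?_, ?_⟩
    · rintro _ ⟨x, rfl⟩
      obtain ⟨z, hz⟩ := hs i k hik x
      exact ⟨z, ht i k hik x z hz⟩
    · rintro _ ⟨x, rfl⟩
      obtain ⟨z, hz⟩ := hs j k hjk x
      exact ⟨z, ht j k hjk x z hz⟩
  have hstr : K.emb (w.toHom.range).subtype := by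
    rw [hran]
    exact hDis L κ K B.α ι (fun i => (t i).toEmb.toHom.range) hdir (fun i => (t i).emb_range)
  have hcomp : w = (w.toHom.range).subtype.comp w.equivRange.toEmbedding := by
    ext x
    rfl
  refine ⟨⟨w, ?_⟩, hw⟩
  rw [hcomp]
  exact K.comp (K.iso G.prop _) hstr

end Pool.Agent.AEC.H51
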