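import Pool.Agent.AEC.StmtsB

/-!
# Squad AEC, row EHS (end-homogeneous sequences)
-/

open FirstOrder FirstOrder.Language Cardinal Set

universe u

namespace Pool.Agent.AEC.H51

section

variable {W C X : Type u} [LinearOrder W] [WellFoundedLT W] (c : Set X → C)

/-- The candidates at the step `i`. -/
def cnd (x : X) (i : W) (f : (j : W) → j < i → X) : Set X :=
  {y | y = x ∨ ((∀ j h, y ≠ f j h) ∧ ∀ s : Finset (Set.Iio i),
    c ((fun j : Set.Iio i => f j.1 j.2) '' (s : Set (Set.Iio i)) ∪ {y}) =
      c ((fun j : Set.Iio i => f j.1 j.2) '' (s : Set (Set.Iio i)) ∪ {x}))}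

/-- The step of the recursion. -/
noncomputable def stp (x : X) (i : W) (f : (j : W) → j < i → X) : X :=
  (WellOrderingRel.isWellOrder (α := X)).wf.min (cnd c x i f) ⟨x, Or.inl rfl⟩

/-- The sequence of `x`. -/
noncomputable def zz (x : X) : W → X :=
  (wellFounded_lt (α := W)).fix (C := fun _ => X) (stp c x)

theorem zz_eq (x : X) (i : W) : zz c x i = stp c x i (fun j _ => zz c x j) :=
  (wellFounded_lt (α := W)).fix_eq _ i

theorem img (z : W → X) (i : W) (s : Finset W) (hs : ∀ a ∈ s, a < i) :
    (fun j : Set.Iio i => z j.1) '' ((s.subtype (fun j => j ∈ Set.Iio i) :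
      Finset (Set.Iio i)) : Set (Set.Iio i)) = z '' (s : Set W) := by
  ext y
  constructor
  · rintro ⟨j, hj, rfl⟩
    refine ⟨j.1, ?_, rfl⟩
    have := Finset.mem_coe.1 hj
    rw [Finset.mem_subtype] at this
    exact Finset.mem_coe.2 this
  · rintro ⟨j, hj, rfl⟩
    refine ⟨⟨j, hs j (Finset.mem_coe.1 hj)⟩, ?_, rfl⟩
    rw [Finset.mem_coe, Finset.mem_subtype]
    exact Finset.mem_coe.1 hj

theorem img' (z : W → X) (i : W) (s : Finset (Set.Iio i)) :
    ∃ s' : Finset W, (∀ a ∈ s', a < i) ∧
    (fun j : Set.Iio i => z j.1) '' (s : Set (Set.Iio i)) = z '' (s' : Set W) := by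
  refine ⟨s.map ⟨Subtype.val, Subtype.val_injective⟩, ?_, ?_⟩
  · intro a ha
    rw [Finset.mem_map] at ha
    obtain ⟨b, _, rfl⟩ := ha
    exact b.2
  · ext y
    constructor
    · rintro ⟨j, hj, rfl⟩
      refine ⟨j.1, ?_, rfl⟩
      rw [Finset.mem_coe, Finset.mem_map]
      exact ⟨j, Finset.mem_coe.1 hj, rfl⟩
    · rintro ⟨j, hj, rfl⟩
      rw [Finset.mem_coe, Finset.mem_map] at hj
      obtain ⟨b, hb, rfl⟩ := hj
      exact ⟨b, Finset.mem_coe.2 hb, rfl⟩

/-- The second condition, in terms of finite subsets of `W`. -/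
def Snd (x : X) (i : W) (y : X) : Prop :=
  (∀ j, j < i → y ≠ zz c x j) ∧ ∀ s : Finset W, (∀ a ∈ s, a < i) →
    c (zz c x '' (s : Set W) ∪ {y}) = c (zz c x '' (s : Set W) ∪ {x})

theorem mem_cnd (x : X) (i : W) (y : X) :
    y ∈ cnd c x i (fun j _ => zz c x j) ↔ y = x ∨ Snd c x i y := by
  constructor
  · rintro (h | ⟨h1, h2⟩)
    · exact Or.inl h
    · refine Or.inr ⟨h1, fun s hs => ?_⟩
      have := h2 (s.subtype (fun j => j ∈ Set.Iio i))
      rw [img (zz c x) i s hs] at this
      exact this
  · rintro (h | ⟨h1, h2⟩)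
    · exact Or.inl h
    · refine Or.inr ⟨h1, fun s => ?_⟩
      obtain ⟨s', hs', he⟩ := img' (zz c x) i s
      rw [he]
      exact h2 s' hs'

theorem zz_mem (x : X) (i : W) : zz c x i = x ∨ Snd c x i (zz c x i) := by
  rw [← mem_cnd]
  have := (WellOrderingRel.isWellOrder (α := X)).wf.min_mem
    (cnd c x i (fun j _ => zz c x j)) ⟨x, Or.inl rfl⟩
  rw [zz_eq c x i]
  exact this

theorem zz_le (x : X) (i : W) (y : X) (hy : y = x ∨ Snd c x i y) :
    ¬ WellOrderingRel y (zz c x i) := by
  rw [← mem_cnd] at hy
  rw [zz_eq c x i]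
  exact (WellOrderingRel.isWellOrder (α := X)).wf.not_lt_min _ hy

theorem eq_of_not {a b : X} (h1 : ¬ WellOrderingRel a b) (h2 : ¬ WellOrderingRel b a) :
    a = b := by
  rcases (WellOrderingRel.isWellOrder (α := X)).toTrichotomous.trichotomous a b h1 h2 with h
  exact h

end

theorem ehs : EhsStmt.{u} := by
  intro W C X _ _ _ c hX
  by_cases hex : ∃ x : X, ∀ i : W, zz c x i ≠ x
  · obtain ⟨x, hx⟩ := hex
    have hS : ∀ i : W, Snd c x i (zz c x i) := fun i => (zz_mem c x i).resolve_left (hx i)
    refine ⟨zz c x, ?_, ?_⟩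
    · intro i j hij
      rcases lt_trichotomy i j with h | h | h
      · exact absurd hij.symm ((hS j).1 i h)
      · exact h
      · exact absurd hij ((hS i).1 j h)
    · intro s i j hi hj
      rw [(hS i).2 s hi, (hS j).2 s hj]
  · exfalso
    have hx : ∀ x : X, ∃ i : W, zz c x i = x := by
      intro x
      by_contra h
      exact hex ⟨x, fun i hi => h ⟨i, hi⟩⟩
    have hl : ∀ x : X, ∃ i : W, zz c x i = x ∧ ∀ j, j < i → zz c x j ≠ x := by
      intro x
      refine ⟨(wellFounded_lt (α := W)).min {i | zz c x i = x} (hx x), ?_, ?_⟩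
      · exact (wellFounded_lt (α := W)).min_mem {i | zz c x i = x} (hx x)
      · intro j hj hjx
        exact (wellFounded_lt (α := W)).not_lt_min {i | zz c x i = x} hjx hj
    choose l hl1 hl2 using hl
    let g : X → (Σ i : W, (Finset (Set.Iio i) → C)) := fun x => ⟨l x, fun s =>
      c ((fun j : Set.Iio (l x) => zz c x j.1) '' (s : Set (Set.Iio (l x))) ∪ {x})⟩
    have hg : Function.Injective g := by
      intro x x' hxx
      have hle : l x = l x' := congrArg Sigma.fst hxx
      have hev : ∀ s : Finset W, (∀ a ∈ s, a < l x) →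
          c (zz c x '' (s : Set W) ∪ {x}) = c (zz c x' '' (s : Set W) ∪ {x'}) := by
        intro s hs
        have h1 := congrArg (fun q : (Σ i : W, (Finset (Set.Iio i) → C)) =>
          q.2 (s.subtype (fun j => j ∈ Set.Iio q.1))) hxx
        have h2 : c ((fun j : Set.Iio (l x) => zz c x j.1) ''
            ((s.subtype (fun j => j ∈ Set.Iio (l x)) : Finset (Set.Iio (l x))) :
              Set (Set.Iio (l x))) ∪ {x}) =
            c ((fun j : Set.Iio (l x') => zz c x' j.1) ''
            ((s.subtype (fun j => j ∈ Set.Iio (l x')) : Finset (Set.Iio (l x'))) :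
              Set (Set.Iio (l x'))) ∪ {x'}) := h1
        rw [img (zz c x) (l x) s hs, img (zz c x') (l x') s (hle ▸ hs)] at h2
        exact h2
      have key : ∀ j : W, j ≤ l x → zz c x j = zz c x' j := by
        intro j
        induction j using (wellFounded_lt (α := W)).induction with
        | _ j ih =>
        intro hj
        have him : ∀ s : Finset W, (∀ a ∈ s, a < j) →
            zz c x '' (s : Set W) = zz c x' '' (s : Set W) := by
          intro s hs
          refine Set.image_congr ?_
          intro a ha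
          exact ih a (hs a (Finset.mem_coe.1 ha)) ((hs a (Finset.mem_coe.1 ha)).le.trans hj)
        rcases hj.lt_or_eq with hlt | heq
        · have hA : Snd c x j (zz c x j) := (zz_mem c x j).resolve_left (hl2 x j hlt)
          have hB : Snd c x' j (zz c x' j) :=
            (zz_mem c x' j).resolve_left (hl2 x' j (hle ▸ hlt))
          have hA' : Snd c x' j (zz c x j) := by
            refine ⟨fun k hk => ?_, fun s hs => ?_⟩
            · rw [← ih k hk (hk.le.trans hj)]
              exact hA.1 k hk
            · rw [← him s hs, hA.2 s hs, hev s (fun a ha => (hs a ha).trans hlt), him s hs]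
          have hB' : Snd c x j (zz c x' j) := by
            refine ⟨fun k hk => ?_, fun s hs => ?_⟩
            · rw [ih k hk (hk.le.trans hj)]
              exact hB.1 k hk
            · rw [him s hs, hB.2 s hs, ← him s hs, hev s (fun a ha => (hs a ha).trans hlt),
                him s hs]
          exact eq_of_not (zz_le c x' j _ (Or.inr hA')) (zz_le c x j _ (Or.inr hB'))
        · have e1 : zz c x j = x := by rw [heq]; exact hl1 x
          have e2 : zz c x' j = x' := by rw [heq, hle]; exact hl1 x'
          have hA' : Snd c x' j x := by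
            refine ⟨fun k hk => ?_, fun s hs => ?_⟩
            · rw [← ih k hk (hk.le.trans hj)]
              exact fun h => hl2 x k (heq ▸ hk) h.symm
            · rw [← him s hs, hev s (fun a ha => heq ▸ hs a ha), him s hs]
          have hB' : Snd c x j x' := by
            refine ⟨fun k hk => ?_, fun s hs => ?_⟩
            · rw [ih k hk (hk.le.trans hj)]
              exact fun h => hl2 x' k (hle ▸ heq ▸ hk) h.symm
            · rw [hev s (fun a ha => heq ▸ hs a ha), him s hs]
          have h1 := zz_le c x' j x (Or.inr hA')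
          have h2 := zz_le c x j x' (Or.inr hB')
          rw [e2] at h1
          rw [e1] at h2
          rw [e1, e2]
          exact eq_of_not h1 h2
      have := key (l x) le_rfl
      rw [hl1 x, hle, hl1 x'] at this
      exact this
    exact absurd (Cardinal.mk_le_of_injective hg) (not_le.2 hX)

end Pool.Agent.AEC.H51
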